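import Pool.Agent.Helper74.DI.St

/-! Project DI, module MAJ. -/

set_option autoImplicit false

namespace Pool.Agent.Helper29.DI

open Pool.Agent.Helper74 Pool.Agent.Helper74.DI
open Pool.Agent.Helper74.NM (NC)

private theorem maj_two (c d : ℕ) (h : c ≠ d) (l : List (Option ℕ)) :
    l.count (some c) + l.count (some d) ≤ l.length := by
  induction l with
  | nil => simp
  | cons x l ih =>
    rw [List.count_cons, List.count_cons, List.length_cons]
    by_cases h1 : x = some c
    · have h2 : x ≠ some d := by
        rw [h1]
        intro h3
        exact h (Option.some.inj h3)
      have e1 : (x == some c) = true := by simp [h1]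
      have e2 : (x == some d) = false := by simpa using h2
      rw [e1, e2]
      simp only [if_true, Bool.false_eq_true, if_false]
      omega
    · have e1 : (x == some c) = false := by simpa using h1
      rw [e1]
      simp only [Bool.false_eq_true, if_false]
      split <;> omega

private theorem maj_cnt (a : Option ℕ) (u w : List (Option ℕ)) (x y : Option ℕ) :
    (u ++ x :: y :: w).count a = (u ++ w).count a + ((if x = a then 1 else 0) +
      (if y = a then 1 else 0)) := by
  rw [List.count_append, List.count_append, List.count_cons, List.count_cons]
  have e : ∀ z : Option ℕ, (if (z == a) = true then 1 else 0) = if z = a then 1 else 0 := by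
    intro z
    by_cases hz : z = a <;> simp [hz]
  rw [e, e]
  omega

private theorem maj_back (hNCI : StNCI) (hADJ : StADJ) (n : ℕ) : ∀ v : List (Option ℕ),
    v.length = n → Even v.length → (∀ c : ℕ, 2 * v.count (some c) ≤ v.length) → NC Dc v := by
  induction n using Nat.strong_induction_on with
  | _ n ih =>
    intro v hv hev hc
    rcases Nat.eq_zero_or_pos v.length with h0 | h0
    · rw [List.length_eq_zero_iff] at h0
      rw [h0]
      exact NC.nil
    have h2 : 2 ≤ v.length := by
      obtain ⟨k, hk⟩ := hev
      omega
    suffices hs : ∃ u x y w, v = u ++ x :: y :: w ∧ Dc x y ∧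
        ∀ c : ℕ, 2 * (u ++ w).count (some c) + 2 ≤ v.length by
      obtain ⟨u, x, y, w, hvv, hxy, hcc⟩ := hs
      have hlen : v.length = (u ++ w).length + 2 := by
        rw [hvv]
        simp only [List.length_append, List.length_cons]
        omega
      have h3 : NC Dc (u ++ w) := by
        refine ih (u ++ w).length (by omega) (u ++ w) rfl ?_ ?_
        · rw [hlen] at hev
          rw [Nat.even_add] at hev
          exact hev.2 (by decide)
        · intro c
          have := hcc c
          omega
      have h4 := hNCI (Option ℕ) Dc u [x, y] w h3 (nc_pair x y hxy)
      rw [hvv]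
      exact h4
    by_cases ha : ∃ c : ℕ, 2 * v.count (some c) = v.length
    · obtain ⟨c, hcc⟩ := ha
      have hin : ∃ x ∈ v, x = some c := by
        refine ⟨some c, ?_, rfl⟩
        rw [← List.count_pos_iff]
        omega
      have hout : ∃ x ∈ v, ¬ x = some c := by
        by_contra hcon
        push Not at hcon
        have := List.count_eq_length.2 (fun b hb => (hcon b hb).symm)
        omega
      obtain ⟨u, x, y, w, hvv, hxy⟩ := hADJ.1 v (fun z => z = some c) hin hout
      have hlen : v.length = (u ++ w).length + 2 := by
        rw [hvv]
        simp only [List.length_append, List.length_cons]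
        omega
      have hone : (if x = some c then 1 else 0) + (if y = some c then 1 else 0) = 1 := by
        rcases hxy with ⟨h5, h6⟩ | ⟨h5, h6⟩
        · rw [if_pos h5, if_neg h6]
        · rw [if_neg h5, if_pos h6]
      have hcnt : v.count (some c) = (u ++ w).count (some c) + 1 := by
        rw [hvv, maj_cnt, hone]
      refine ⟨u, x, y, w, hvv, ?_, ?_⟩
      · left
        rintro rfl
        rcases hxy with ⟨h5, h6⟩ | ⟨h5, h6⟩
        · exact h6 h5
        · exact h5 h6
      · intro d
        by_cases hd : d = c
        · subst hd
          omega
        · have := maj_two d c hd (u ++ w)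
          omega
    · push Not at ha
      rcases hADJ.2 v h2 with ⟨u, x, y, w, hvv, hxy⟩ | ⟨c, hcon⟩
      · refine ⟨u, x, y, w, hvv, hxy, ?_⟩
        intro d
        have h5 : (u ++ w).count (some d) ≤ v.count (some d) := by
          rw [hvv, maj_cnt]
          omega
        have h6 := hc d
        have h7 := ha d
        obtain ⟨k, hk⟩ := hev
        omega
      · exfalso
        have h5 := List.count_eq_length.2 (fun b hb => (hcon b hb).symm)
        have h6 := hc c
        omega

theorem hMAJ (hNCI : StNCI) (hADJ : StADJ) : StMAJ := by
  intro v
  constructor
  · intro h
    refine ⟨nc_even v h, ?_⟩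
    intro c
    induction h with
    | nil => simp
    | wrap x y p q hxy _ _ ihp ihq =>
      have hle : (if x = some c then 1 else 0) + (if y = some c then 1 else 0) ≤ 1 := by
        by_cases h1 : x = some c
        · have h2 : y ≠ some c := by
            rintro rfl
            rcases hxy with h3 | h3
            · exact h3 h1
            · rw [h3] at h1
              exact absurd h1 (by simp)
          rw [if_pos h1, if_neg h2]
        · rw [if_neg h1]
          split <;> omega
      have e : ∀ z : Option ℕ, (if (z == some c) = true then 1 else 0) =
          if z = some c then 1 else 0 := by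
        intro z
        by_cases hz : z = some c <;> simp [hz]
      rw [List.count_cons, List.count_append, List.count_cons, List.length_cons,
        List.length_append, List.length_cons, e, e]
      omega
  · rintro ⟨hev, hc⟩
    exact maj_back hNCI hADJ v.length v rfl hev hc

end Pool.Agent.Helper29.DI
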